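import Pool.Agent.Results.MP_042ec1_co.BoundedCw
import Pool.Agent.Results.MP_042ec1_co.S123Bounded

/-!
# MP_43eff6_co, Q1: `(K_3, H_2)`-free atoms have bounded clique-width for both open graphs `H_2`

This follows from the two theorems on all `(K_3, P_1 + S_{1,1,3})`-free graphs and on all
`(K_3, S_{1,2,3})`-free graphs proved in `Pool.Agent.Results.MP_042ec1_co`.
-/

set_option autoImplicit false

open SimpleGraph Pool.Agent.Helper856.Lcw Pool.Agent.Helper856.Cw Pool.Agent.H333R2.St

namespace Pool.Agent.Results.MP_43eff6_co.AtomsBounded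

/-- An atom: a connected graph without a clique cut-set, i.e. for no clique `K` (possibly empty) the
graph `G - K` is disconnected. -/
def IsAtom {V : Type} (G : SimpleGraph V) : Prop :=
  G.Connected ∧ ∀ K : Set V, G.IsClique K → (G.induce Kᶜ).Preconnected

/-- The `(K_3, H)`-free atoms have bounded clique-width. -/
def BoundedAtoms {W : Type} (H : SimpleGraph W) : Prop :=
  ∃ c : ℕ, ∀ (V : Type) [Finite V] (G : SimpleGraph V), IsAtom G → G.CliqueFree 3 →
    ¬ H.IsIndContained G → cliqueWidth G ≤ c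

/-- The `(K_3, P_1 + S_{1,1,3})`-free atoms and the `(K_3, S_{1,2,3})`-free atoms have bounded
clique-width. -/
theorem result : BoundedAtoms P1_S113 ∧ BoundedAtoms S123 := by
  obtain ⟨c, hc⟩ := Pool.Agent.Results.MP_042ec1_co.BoundedCw.result
  obtain ⟨d, hd⟩ := Pool.Agent.Results.MP_042ec1_co.S123Bounded.result
  exact ⟨⟨c, fun V _ G _ h3 hH => (hc V G h3 hH).1⟩, ⟨d, fun V _ G _ h3 hH => hd V G h3 hH⟩⟩

end Pool.Agent.Results.MP_43eff6_co.AtomsBounded
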